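import Pool.Agent.Helper42.SG.GoalsT

/-!
# Project SG (MP_a41896_nt), packet SGT-MINC: coefficients of minimal weight
-/

set_option autoImplicit false

namespace Pool.Agent.Helper31.SGT

open Pool.Agent.Helper42.SG

theorem wt_add {σ : Type} [Fintype σ] (d : σ → ℕ) (a b : σ →₀ ℕ) :
    wt d (a + b) = wt d a + wt d b := by
  unfold wt
  rw [← Finset.sum_add_distrib]
  refine Finset.sum_congr rfl fun h _ => ?_
  rw [Finsupp.add_apply, Nat.cast_add, add_div]

theorem wt_nonneg {σ : Type} [Fintype σ] (d : σ → ℕ) (a : σ →₀ ℕ) : 0 ≤ wt d a :=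
  Finset.sum_nonneg fun _ _ => by positivity

theorem wt_pos {σ : Type} [Fintype σ] (d : σ → ℕ) (hd : ∀ i, 1 ≤ d i) (b : σ →₀ ℕ)
    (hb : b ≠ 0) : 0 < wt d b := by
  obtain ⟨i, hi⟩ := Finsupp.ne_iff.1 hb
  rw [Finsupp.zero_apply] at hi
  refine Finset.sum_pos' (fun _ _ => by positivity) ⟨i, Finset.mem_univ i, ?_⟩
  have h1 : (0 : ℝ) < b i := by exact_mod_cast Nat.pos_of_ne_zero hi
  have h2 : (0 : ℝ) < d i := by exact_mod_cast hd i
  positivity

theorem t_MINC : Pool.Agent.Helper42.SG.MINC := by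
  classical
  intro K _ σ _ d f g α hd hf
  constructor
  · rw [MvPowerSeries.coeff_mul, Finset.sum_eq_single ((α, 0) : (σ →₀ ℕ) × (σ →₀ ℕ))]
    · rw [MvPowerSeries.coeff_zero_eq_constantCoeff, mul_comm]
    · intro p hp hne
      rw [Finset.HasAntidiagonal.mem_antidiagonal] at hp
      have h2 : p.2 ≠ 0 := by
        intro h0
        apply hne
        refine Prod.ext ?_ h0
        rw [h0, add_zero] at hp
        exact hp
      have h3 : wt d p.1 < wt d α := by
        rw [← hp, wt_add]
        have := wt_pos d hd p.2 h2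
        linarith
      rw [hf _ h3, zero_mul]
    · intro h
      exact absurd (Finset.HasAntidiagonal.mem_antidiagonal.2 (add_zero α)) h
  · intro β hβ
    rw [MvPowerSeries.coeff_mul]
    refine Finset.sum_eq_zero fun p hp => ?_
    rw [Finset.HasAntidiagonal.mem_antidiagonal] at hp
    have h3 : wt d p.1 < wt d α := by
      rw [← hp, wt_add] at hβ
      have := wt_nonneg d p.2
      linarith
    rw [hf _ h3, zero_mul]

end Pool.Agent.Helper31.SGT
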